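import Mathlib

set_option autoImplicit false

open Finset

namespace Pool.Agent.Results.MP_cd30d4_co.TaylorNonneg

/-- the tail `e^x - ∑_{k<r} x^k/k!` of the exponential series -/
noncomputable def B (r : ℕ) (x : ℝ) : ℝ := Real.exp x - ∑ k ∈ Finset.range r, x ^ k / k.factorial

theorem hasDerivAt_B_zero (x : ℝ) : HasDerivAt (B 0) (B 0 x) x := by
  have : B 0 = Real.exp := by funext y; simp [B]
  rw [this]
  exact Real.hasDerivAt_exp x

theorem hasDerivAt_B_succ (r : ℕ) (x : ℝ) : HasDerivAt (B (r + 1)) (B r x) x := by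
  have h1 : ∀ k : ℕ, HasDerivAt (fun y : ℝ => y ^ (k + 1) / ((k + 1).factorial : ℝ))
      (x ^ k / (k.factorial : ℝ)) x := by
    intro k
    have h := (hasDerivAt_pow (k + 1) x).div_const ((k + 1).factorial : ℝ)
    refine h.congr_deriv ?_
    rw [Nat.factorial_succ]
    have : (k.factorial : ℝ) ≠ 0 := by positivity
    have h2 : ((k : ℝ) + 1) ≠ 0 := by positivity
    push_cast
    field_simp
  have h2 : HasDerivAt (fun y : ℝ => ∑ k ∈ Finset.range r, y ^ (k + 1) / ((k + 1).factorial : ℝ))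
      (∑ k ∈ Finset.range r, x ^ k / (k.factorial : ℝ)) x :=
    HasDerivAt.fun_sum fun i _ => h1 i
  have h3 : B (r + 1) = fun y : ℝ => Real.exp y -
      (∑ k ∈ Finset.range r, y ^ (k + 1) / ((k + 1).factorial : ℝ) + 1) := by
    funext y
    simp only [B]
    rw [Finset.sum_range_succ']
    simp
  rw [h3]
  exact (Real.hasDerivAt_exp x).sub (h2.add_const 1)

theorem contDiff_B (r : ℕ) (n : ℕ) : ContDiff ℝ n (B r) := by
  unfold B
  refine Real.contDiff_exp.sub (ContDiff.sum fun i _ => ?_)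
  exact (contDiff_id.pow i).div_const _

theorem iteratedDeriv_B (k : ℕ) : ∀ r : ℕ, iteratedDeriv k (B r) 0 = if k < r then 0 else 1 := by
  induction k with
  | zero =>
    intro r
    rw [iteratedDeriv_zero]
    cases r with
    | zero => simp [B]
    | succ r => simp [B, Finset.sum_range_succ']
  | succ k ih =>
    intro r
    rw [iteratedDeriv_succ']
    cases r with
    | zero =>
      have : deriv (B 0) = B 0 := funext fun x => (hasDerivAt_B_zero x).deriv
      rw [this, ih 0]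
      simp
    | succ r =>
      have : deriv (B (r + 1)) = B r := funext fun x => (hasDerivAt_B_succ r x).deriv
      rw [this, ih r]
      simp

/-- the coefficients (times `n!`) as binomial sums -/
noncomputable def b (r n : ℕ) (a : ℝ) : ℝ :=
  ∑ i ∈ Finset.range (n + 1), (n.choose i : ℝ) * a ^ i * (if n - i < r then 0 else 1)

theorem b_self (r : ℕ) (a : ℝ) : b r r a = 1 := by
  unfold b
  rw [Finset.sum_range_succ']
  simp only [Nat.choose_zero_right, pow_zero, Nat.sub_zero, lt_irrefl, if_false]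
  rw [Finset.sum_eq_zero]
  · simp
  · intro i _
    have : r - (i + 1) < r ∨ r = 0 := by omega
    rcases this with h | h
    · rw [if_pos h, mul_zero]
    · subst h
      simp

theorem b_lt (r n : ℕ) (a : ℝ) (h : n < r) : b r n a = 0 := by
  unfold b
  refine Finset.sum_eq_zero fun i _ => ?_
  rw [if_pos (by omega), mul_zero]

theorem b_eq (r M : ℕ) (a : ℝ) :
    b r (r + M) a = ∑ i ∈ Finset.range (M + 1), ((r + M).choose i : ℝ) * a ^ i := by
  unfold b
  have hsub : Finset.range (M + 1) ⊆ Finset.range (r + M + 1) :=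
    Finset.range_subset_range.2 (by omega)
  rw [← Finset.sum_subset hsub]
  · refine Finset.sum_congr rfl fun i hi => ?_
    rw [Finset.mem_range] at hi
    rw [if_neg (by omega), mul_one]
  · intro i hi hni
    rw [Finset.mem_range] at hi hni
    rw [if_pos (by omega), mul_zero]

theorem b_succ (r M : ℕ) (a : ℝ) :
    b r (r + (M + 1)) a = (1 + a) * b r (r + M) a + ((r + M).choose (M + 1) : ℝ) * a ^ (M + 1) := by
  rw [b_eq, b_eq, Finset.sum_range_succ' _ (M + 1)]
  have h1 : ∀ i, ((r + (M + 1)).choose (i + 1) : ℝ) =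
      ((r + M).choose i : ℝ) + ((r + M).choose (i + 1) : ℝ) := by
    intro i
    rw [show r + (M + 1) = (r + M) + 1 by ring, Nat.choose_succ_succ]
    push_cast
    ring
  have h2 : ∑ i ∈ Finset.range (M + 1), ((r + (M + 1)).choose (i + 1) : ℝ) * a ^ (i + 1) =
      a * ∑ i ∈ Finset.range (M + 1), ((r + M).choose i : ℝ) * a ^ i +
      ∑ i ∈ Finset.range (M + 1), ((r + M).choose (i + 1) : ℝ) * a ^ (i + 1) := by
    rw [Finset.mul_sum, ← Finset.sum_add_distrib]
    refine Finset.sum_congr rfl fun i _ => ?_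
    rw [h1, pow_succ]
    ring
  have h3 : ∑ i ∈ Finset.range (M + 1), ((r + M).choose (i + 1) : ℝ) * a ^ (i + 1) + 1 =
      ∑ i ∈ Finset.range (M + 1), ((r + M).choose i : ℝ) * a ^ i +
        ((r + M).choose (M + 1) : ℝ) * a ^ (M + 1) := by
    have h4 := Finset.sum_range_succ' (fun i => ((r + M).choose i : ℝ) * a ^ i) (M + 1)
    have h5 := Finset.sum_range_succ (fun i => ((r + M).choose i : ℝ) * a ^ i) (M + 1)
    simp only [Nat.choose_zero_right, pow_zero, Nat.cast_one, mul_one] at h4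
    linarith
  simp only [Nat.choose_zero_right, pow_zero, Nat.cast_one, mul_one]
  rw [h2]
  linear_combination h3

/-- magnitudes of the terms of the alternating sum -/
noncomputable def u (r i : ℕ) : ℝ := ((r + i - 1).choose i : ℝ) / (r : ℝ) ^ i

theorem u_nonneg (r i : ℕ) : 0 ≤ u r i := by unfold u; positivity

theorem u_succ_le (r i : ℕ) (hr : 1 ≤ r) : u r (i + 1) ≤ u r i := by
  unfold u
  obtain ⟨s, rfl⟩ : ∃ s, r = s + 1 := ⟨r - 1, by omega⟩
  have e1 : s + 1 + (i + 1) - 1 = s + i + 1 := by omega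
  have e2 : s + 1 + i - 1 = s + i := by omega
  rw [e1, e2]
  have h1 : ((s + i + 1).choose (i + 1)) * (i + 1) = (s + i + 1) * ((s + i).choose i) := by
    rw [Nat.add_one_mul_choose_eq]
  have h2 : ((s + i + 1).choose (i + 1) : ℝ) * ((i : ℝ) + 1) =
      ((s : ℝ) + i + 1) * ((s + i).choose i : ℝ) := by exact_mod_cast h1
  have hs : (0 : ℝ) < ((s + 1 : ℕ) : ℝ) := by positivity
  rw [div_le_div_iff₀ (by positivity) (by positivity), pow_succ]
  have hC : (0 : ℝ) ≤ ((s + i).choose i : ℝ) := by positivity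
  have h3 : ((s + i + 1).choose (i + 1) : ℝ) ≤ ((s + i).choose i : ℝ) * ((s + 1 : ℕ) : ℝ) := by
    have hi : (0 : ℝ) < (i : ℝ) + 1 := by positivity
    refine le_of_mul_le_mul_right ?_ hi
    rw [h2]
    push_cast
    have : (s : ℝ) + i + 1 ≤ (s + 1) * (i + 1) := by
      have : (0 : ℝ) ≤ (s : ℝ) * i := by positivity
      nlinarith
    nlinarith
  calc ((s + i + 1).choose (i + 1) : ℝ) * ((s + 1 : ℕ) : ℝ) ^ i
      ≤ (((s + i).choose i : ℝ) * ((s + 1 : ℕ) : ℝ)) * ((s + 1 : ℕ) : ℝ) ^ i :=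
        mul_le_mul_of_nonneg_right h3 (by positivity)
    _ = _ := by ring

/-- partial sums of the alternating sum -/
noncomputable def S (r M : ℕ) : ℝ := ∑ i ∈ Finset.range (M + 1), (-1) ^ i * u r i

theorem S_even_odd (r : ℕ) (hr : 1 ≤ r) (m : ℕ) :
    u r (2 * m) ≤ S r (2 * m) ∧ 0 ≤ S r (2 * m + 1) := by
  have hstep : ∀ m, u r (2 * m) ≤ S r (2 * m) → 0 ≤ S r (2 * m + 1) := by
    intro m h
    have h1 : S r (2 * m + 1) = S r (2 * m) + (-1) ^ (2 * m + 1) * u r (2 * m + 1) := by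
      unfold S; rw [Finset.sum_range_succ]
    rw [h1, pow_succ, pow_mul]
    have := u_succ_le r (2 * m) hr
    norm_num
    linarith
  induction m with
  | zero =>
    have h0 : u r (2 * 0) ≤ S r (2 * 0) := by simp [S]
    exact ⟨h0, hstep 0 h0⟩
  | succ m ih =>
    have h1 : S r (2 * (m + 1)) = S r (2 * m + 1) + (-1) ^ (2 * (m + 1)) * u r (2 * (m + 1)) := by
      unfold S
      rw [show 2 * (m + 1) = 2 * m + 1 + 1 by ring, Finset.sum_range_succ]
    have h2 : u r (2 * (m + 1)) ≤ S r (2 * (m + 1)) := by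
      rw [h1, pow_mul]
      norm_num
      exact ih.2
    exact ⟨h2, hstep _ h2⟩

theorem S_nonneg (r : ℕ) (hr : 1 ≤ r) (M : ℕ) : 0 ≤ S r M := by
  rcases Nat.even_or_odd' M with ⟨m, rfl | rfl⟩
  · exact (u_nonneg r _).trans (S_even_odd r hr m).1
  · exact (S_even_odd r hr m).2

theorem b_eq_S (r : ℕ) (hr : 1 ≤ r) (M : ℕ) :
    b r (r + M) (-(1 / ((r : ℝ) + 1))) = ((r : ℝ) / (r + 1)) ^ M * S r M := by
  have hr0 : (0 : ℝ) < r := by exact_mod_cast hr
  induction M with
  | zero =>
    rw [add_zero, b_self]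
    simp [S, u]
  | succ M ih =>
    rw [b_succ, ih]
    have h1 : S r (M + 1) = S r M + (-1) ^ (M + 1) * u r (M + 1) := by
      unfold S; rw [Finset.sum_range_succ]
    rw [h1]
    have h2 : u r (M + 1) = ((r + M).choose (M + 1) : ℝ) / (r : ℝ) ^ (M + 1) := by
      unfold u
      rw [show r + (M + 1) - 1 = r + M by omega]
    have e1 : (1 : ℝ) + -(1 / ((r : ℝ) + 1)) = r / (r + 1) := by field_simp; ring
    have e2 : (-(1 / ((r : ℝ) + 1))) ^ (M + 1) =
        (-1) ^ (M + 1) * (1 / ((r : ℝ) + 1)) ^ (M + 1) := by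
      rw [← mul_pow]; congr 1; ring
    rw [h2, e1, e2, div_pow, div_pow, div_pow, one_pow]
    field_simp
    ring

theorem b_nonneg (r : ℕ) (hr : 1 ≤ r) (n : ℕ) : 0 ≤ b r n (-(1 / ((r : ℝ) + 1))) := by
  rcases lt_or_ge n r with h | h
  · rw [b_lt r n _ h]
  · obtain ⟨M, rfl⟩ := Nat.exists_eq_add_of_le h
    rw [b_eq_S r hr M]
    exact mul_nonneg (by positivity) (S_nonneg r hr M)

/-- All Taylor coefficients at `0` of `e^(-x/(r+1)) (e^x - ∑_{k<r} x^k/k!)` are nonnegative. -/
theorem result (r : ℕ) (hr : 1 ≤ r) (n : ℕ) :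
    0 ≤ iteratedDeriv n (fun x : ℝ => Real.exp (-x / ((r : ℝ) + 1)) *
      (Real.exp x - ∑ k ∈ Finset.range r, x ^ k / (k.factorial : ℝ))) 0 / (n.factorial : ℝ) := by
  refine div_nonneg ?_ (by positivity)
  have h1 : (fun x : ℝ => Real.exp (-x / ((r : ℝ) + 1)) *
      (Real.exp x - ∑ k ∈ Finset.range r, x ^ k / (k.factorial : ℝ))) =
      fun x => (fun s : ℝ => Real.exp (-(1 / ((r : ℝ) + 1)) * s)) x * B r x := by
    funext x
    simp only [B]
    congr 2
    ring
  rw [h1, iteratedDeriv_fun_mul]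
  · refine (b_nonneg r hr n).trans (le_of_eq ?_)
    unfold b
    refine Finset.sum_congr rfl fun i _ => ?_
    rw [iteratedDeriv_B, iteratedDeriv_exp_const_mul]
    simp
  · exact ((Real.contDiff_exp).comp (contDiff_const.mul contDiff_id)).contDiffAt
  · exact (contDiff_B r n).contDiffAt

end Pool.Agent.Results.MP_cd30d4_co.TaylorNonneg
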